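import Pool.Agent.Helper37.SU.Stmts

/-!
# The error of the algorithm, reduced to numbers (MP_aa31b4_an)
-/

set_option autoImplicit false

namespace Pool.Agent.Helper37.SU

open MeasureTheory Finset
open scoped ENNReal Classical

theorem ERR_prob (d : ℕ) : IsProbabilityMeasure (haar d) := by
  have h : IsProbabilityMeasure haar1 := by unfold haar1; infer_instance
  unfold haar
  infer_instance

theorem ERR_cont_tp {d : ℕ} (Λ : Finset (Fin d → ℤ)) (c : (Fin d → ℤ) → ℂ) :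
    Continuous (tp Λ c) := by
  unfold tp
  refine continuous_finsetSum _ fun k _ => continuous_const.mul ?_
  exact continuous_finsetProd _ fun i _ => (fourier (k i)).continuous.comp (continuous_apply i)

theorem ERR_cont_Phi {d : ℕ} (b : ℕ) (B : Bo d) : Continuous (Phi b B) := by
  unfold Phi
  refine continuous_finsetProd _ fun i _ => ?_
  unfold ik vp
  refine continuous_const.mul (continuous_finsetSum _ fun k _ => continuous_const.mul ?_)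
  exact (fourier k).continuous.comp ((continuous_apply i).sub continuous_const)

theorem ERR_fin {d : ℕ} (Λ : Finset (Fin d → ℤ)) (c : (Fin d → ℤ) → ℂ) (p : ℝ≥0∞) :
    eLpNorm (tp Λ c) p (haar d) ≠ ∞ := by
  have := ERR_prob d
  obtain ⟨K, hK⟩ : ∃ K : ℝ, ∀ t, ‖tp Λ c t‖ ≤ K := by
    refine ⟨∑ k ∈ Λ, ‖c k‖, fun t => ?_⟩
    unfold tp
    refine (norm_sum_le _ _).trans (Finset.sum_le_sum fun k _ => ?_)
    rw [norm_mul, norm_prod]
    have : ∏ i, ‖(fourier (k i) (t i) : ℂ)‖ = 1 := by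
      refine Finset.prod_eq_one fun i _ => ?_
      rw [fourier_apply]
      exact Circle.norm_coe _
    rw [this, mul_one]
  have h : MemLp (tp Λ c) p (haar d) :=
    MemLp.of_bound (ERR_cont_tp Λ c).aestronglyMeasurable K (Filter.Eventually.of_forall hK)
  exact h.2.ne

theorem ERR_zero {ι : Type} (u : ℝ) (hu : 0 < u) (S : Finset ι) :
    lp u S (fun _ => (0 : ℂ)) = 0 := by
  unfold lp
  have h1 : ∑ _i ∈ S, ‖(0 : ℂ)‖ ^ u = 0 := by
    refine Finset.sum_eq_zero fun i _ => ?_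
    rw [norm_zero, Real.zero_rpow hu.ne']
  rw [h1, Real.zero_rpow (by positivity)]

theorem ERR_nonneg {ι : Type} (u : ℝ) (S : Finset ι) (y : ι → ℂ) : 0 ≤ lp u S y := by
  unfold lp
  exact Real.rpow_nonneg (Finset.sum_nonneg fun i _ => Real.rpow_nonneg (norm_nonneg _) _) _

theorem ERR_TB_nonneg (b d n₀ n₃ n m : ℕ) (v θ ε : ℝ) (l l' : ℕ) :
    0 ≤ TB b d n₀ n₃ n m v θ ε l l' := by
  unfold TB
  split_ifs <;> positivity

/-- The bound for one pair of levels. -/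
theorem ERR_pair (hLP : ST_LPT) (b d : ℕ) (u v θ ε C₁ CE CC CH : ℝ) (hb : 3 ≤ b)
    (hu : 0 < u) (hv : 0 < v) (hvu : v ≤ u) (hCE : 0 < CE) (hCC : 0 < CC) (hCH : 0 < CH)
    (n₀ n₁ n₃ n m : ℕ) (x : Fin (b ^ m) → TT d) (hn : 2 ≤ n) (hnm : n ≤ m) (hmn : m ≤ n₃)
    (hn3 : (n₃ : ℝ) ≤ C₁ * n) (h0 : (b : ℝ) ^ m ≤ (n : ℝ) ^ C₁ * (b : ℝ) ^ n₀)
    (h1 : (b : ℝ) ^ m ≤ (n : ℝ) ^ C₁ * (b : ℝ) ^ n₁) (hx : IsNet b d m x)
    (hE : ∀ (n m l l' : ℕ) (x : Fin (b ^ m) → TT d) (z : Bo d → ℂ), 2 ≤ n → IsNet b d m x →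
      l ≤ m → (l : ℝ) ≤ C₁ * n → (l' : ℝ) ≤ C₁ * n → (b : ℝ) ^ m ≤ (n : ℝ) ^ C₁ * (b : ℝ) ^ l →
      (b : ℝ) ^ m ≤ (n : ℝ) ^ C₁ * (b : ℝ) ^ l' →
      lp u (lev b d l) (fun B => ∑ B' ∈ lev b d l', Ent b m x B B' * z B') ≤
        CE * (n : ℝ) ^ ε * ((b : ℝ) ^ l / (b : ℝ) ^ m) *
          (((n : ℝ) ^ (d - 1) + (b : ℝ) ^ m / (b : ℝ) ^ l) *
            ((n : ℝ) ^ (d - 1) + (b : ℝ) ^ m / (b : ℝ) ^ l')) ^ θ * lp v (lev b d l') z)
    (hC : ∀ (m l l' : ℕ) (x : Fin (b ^ m) → TT d) (z : Bo d → ℂ), IsNet b d m x → l ≤ m →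
      m ≤ l' → lp v (lev b d l) (fun B => ∑ B' ∈ lev b d l', Ent b m x B B' * z B') ≤
        CC * (1 + (l : ℝ) + l') ^ d * lp v (lev b d l') z)
    (hH : ∀ (l l' : ℕ) (z : Bo d → ℂ),
      lp v (lev b d l) (fun B => ∑ B' ∈ lev b d l', Hm b B B' * z B') ≤
        CH * (1 + ((l' - l : ℕ) : ℝ)) ^ d * (b : ℝ) ^ (-(((l' - l : ℕ) : ℝ) / v)) *
          lp v (lev b d l') z ∧
      (l' + 2 * d < l → ∀ B ∈ lev b d l, ∀ B' ∈ lev b d l', Hm b B B' = 0))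
    (l l' : ℕ) (hl' : n₁ < l') (z : Bo d → ℂ) :
    lp u (lev b d l) (fun B => ∑ B' ∈ lev b d l',
      (if n₀ ≤ l ∧ l ≤ n then -Ent b m x B B' else Hm b B B') * z B') ≤
      (CE + CC + CH) * TB b d n₀ n₃ n m v θ ε l l' * lp v (lev b d l') z := by
  obtain ⟨_, _, hL3, hL4⟩ := hLP
  have hb1 : (1 : ℝ) ≤ b := by
    have : 1 ≤ b := by omega
    exact_mod_cast this
  have hz0 : 0 ≤ lp v (lev b d l') z := ERR_nonneg _ _ _
  have hT0 := ERR_TB_nonneg b d n₀ n₃ n m v θ ε l l'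
  by_cases hc : n₀ ≤ l ∧ l ≤ n
  · have e1 : lp u (lev b d l) (fun B => ∑ B' ∈ lev b d l',
        (if n₀ ≤ l ∧ l ≤ n then -Ent b m x B B' else Hm b B B') * z B') ≤
        lp u (lev b d l) (fun B => ∑ B' ∈ lev b d l', Ent b m x B B' * z B') := by
      refine hL3 _ u (lev b d l) _ _ hu fun B _ => le_of_eq ?_
      simp only [if_pos hc, neg_mul, Finset.sum_neg_distrib, norm_neg]
    by_cases h3 : l' ≤ n₃
    · have hlm : l ≤ m := hc.2.trans hnm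
      have hlC : (l : ℝ) ≤ C₁ * n := by
        have : (l : ℝ) ≤ n₃ := by exact_mod_cast hlm.trans hmn
        linarith
      have hlC' : (l' : ℝ) ≤ C₁ * n := by
        have : (l' : ℝ) ≤ n₃ := by exact_mod_cast h3
        linarith
      have hnC : 0 ≤ (n : ℝ) ^ C₁ := by positivity
      have e2 : (b : ℝ) ^ m ≤ (n : ℝ) ^ C₁ * (b : ℝ) ^ l :=
        h0.trans (mul_le_mul_of_nonneg_left (pow_le_pow_right₀ hb1 hc.1) hnC)
      have e3 : (b : ℝ) ^ m ≤ (n : ℝ) ^ C₁ * (b : ℝ) ^ l' :=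
        h1.trans (mul_le_mul_of_nonneg_left (pow_le_pow_right₀ hb1 hl'.le) hnC)
      have e4 := hE n m l l' x z hn hx hlm hlC hlC' e2 e3
      have e5 : TB b d n₀ n₃ n m v θ ε l l' = (n : ℝ) ^ ε * ((b : ℝ) ^ l / (b : ℝ) ^ m) *
          (((n : ℝ) ^ (d - 1) + (b : ℝ) ^ m / (b : ℝ) ^ l) *
            ((n : ℝ) ^ (d - 1) + (b : ℝ) ^ m / (b : ℝ) ^ l')) ^ θ := by
        unfold TB
        rw [if_pos hc, if_pos h3]
      rw [e5] at hT0 ⊢
      refine e1.trans (e4.trans ?_)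
      have e6 : CE * (n : ℝ) ^ ε * ((b : ℝ) ^ l / (b : ℝ) ^ m) *
          (((n : ℝ) ^ (d - 1) + (b : ℝ) ^ m / (b : ℝ) ^ l) *
            ((n : ℝ) ^ (d - 1) + (b : ℝ) ^ m / (b : ℝ) ^ l')) ^ θ =
          CE * ((n : ℝ) ^ ε * ((b : ℝ) ^ l / (b : ℝ) ^ m) *
          (((n : ℝ) ^ (d - 1) + (b : ℝ) ^ m / (b : ℝ) ^ l) *
            ((n : ℝ) ^ (d - 1) + (b : ℝ) ^ m / (b : ℝ) ^ l')) ^ θ) := by ring
      rw [e6]
      exact mul_le_mul_of_nonneg_right (mul_le_mul_of_nonneg_right (by linarith) hT0) hz0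
    · push Not at h3
      have e4 := hC m l l' x z hx (hc.2.trans hnm) (hmn.trans h3.le)
      have e5 : TB b d n₀ n₃ n m v θ ε l l' = (1 + (l : ℝ) + l') ^ d := by
        unfold TB
        rw [if_pos hc, if_neg (not_le.2 h3)]
      rw [e5] at hT0 ⊢
      refine e1.trans ((hL4 _ u v _ _ hv hvu).trans (e4.trans ?_))
      exact mul_le_mul_of_nonneg_right (mul_le_mul_of_nonneg_right (by linarith) hT0) hz0
  · have e1 : lp u (lev b d l) (fun B => ∑ B' ∈ lev b d l',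
        (if n₀ ≤ l ∧ l ≤ n then -Ent b m x B B' else Hm b B B') * z B') =
        lp u (lev b d l) (fun B => ∑ B' ∈ lev b d l', Hm b B B' * z B') := by
      simp only [if_neg hc]
    rw [e1]
    by_cases h2 : l ≤ l' + 2 * d
    · have e5 : TB b d n₀ n₃ n m v θ ε l l' =
          (1 + ((l' - l : ℕ) : ℝ)) ^ d * (b : ℝ) ^ (-(((l' - l : ℕ) : ℝ) / v)) := by
        unfold TB
        rw [if_neg hc, if_pos h2]
      rw [e5] at hT0 ⊢
      refine (hL4 _ u v _ _ hv hvu).trans ((hH l l' z).1.trans ?_)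
      have e6 : CH * (1 + ((l' - l : ℕ) : ℝ)) ^ d * (b : ℝ) ^ (-(((l' - l : ℕ) : ℝ) / v)) =
          CH * ((1 + ((l' - l : ℕ) : ℝ)) ^ d * (b : ℝ) ^ (-(((l' - l : ℕ) : ℝ) / v))) := by ring
      rw [e6]
      exact mul_le_mul_of_nonneg_right (mul_le_mul_of_nonneg_right (by linarith) hT0) hz0
    · push Not at h2
      have e7 : lp u (lev b d l) (fun B => ∑ B' ∈ lev b d l', Hm b B B' * z B') ≤
          lp u (lev b d l) (fun _ => (0 : ℂ)) := by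
        refine hL3 _ u (lev b d l) _ _ hu fun B hB => le_of_eq ?_
        rw [Finset.sum_eq_zero fun B' hB' => ?_]
        rw [(hH l l' z).2 h2 B hB B' hB', zero_mul]
      rw [ERR_zero u hu] at e7
      refine e7.trans ?_
      positivity

theorem st_ERR (hD : ST_DEC) (hS : ST_SYN) (hP : ST_PHB) (hLP : ST_LPT) (hA : ST_ANL)
    (hEB : ST_EB) (hEC : ST_EC) (hHB : ST_HB) : ST_ERR := by
  intro b d p q r u v θ ε C₁ hb hd hp hpv hvu huq hpr hθ hθ2 hθu hvθ hε hC₁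
  have hv1 : 1 ≤ v := by linarith
  have hu1 : 1 ≤ u := by linarith
  have hu0 : 0 < u := by linarith
  have hv0 : 0 < v := by linarith
  obtain ⟨CS, hCS, hS'⟩ := hS b d u q (by omega) hu1 huq
  obtain ⟨CP, hCP, hP'⟩ := hP b d (by omega)
  obtain ⟨CA, hCA, hA'⟩ := hA b d p v r hb hp hpv hpr
  obtain ⟨CE, hCE, hE'⟩ := hEB b d u v θ ε C₁ hb hd hθ hθ2 hθu hv1 hvθ hε hC₁
  obtain ⟨CC, hCC, hC'⟩ := hEC b d v hb hd hv1
  obtain ⟨CH, hCH, hH'⟩ := hHB b d v hb hd hv1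
  refine ⟨CS * CP * (CE + CC + CH) * CA, by positivity, ?_⟩
  intro n₀ n₁ n₃ n m x hn hnm hmn hn3 h0 h1 hx Λ c
  obtain ⟨L, hL⟩ := hD b d m n₀ n₁ n x Λ (mc r c) hb
  refine ⟨L, ?_⟩
  have hL' := hL L le_rfl
  have := ERR_prob d
  have hq1 : 1 ≤ ENNReal.ofReal q := by
    rw [ENNReal.one_le_ofReal]
    linarith
  set f : TT d → ℂ := tp Λ (mc r c) with hf
  set N : ℝ := (eLpNorm (tp Λ c) (ENNReal.ofReal p) (haar d)).toReal with hN
  have hN0 : 0 ≤ N := ENNReal.toReal_nonneg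
  set Y : ℕ → Bo d → ℂ := fun l B => ∑ l' ∈ Ioc n₁ L, ∑ B' ∈ lev b d l',
    (if n₀ ≤ l ∧ l ≤ n then -Ent b m x B B' else Hm b B B') * zz b f B' with hY
  have hfun : (fun t => f t - Aop b m n₀ n₁ n x f t) =
      ∑ l ∈ range (L + 2 * d + 1), (fun t => ∑ B ∈ lev b d l, Y l B * Phi b B t) := by
    funext t
    rw [Finset.sum_apply]
    exact hL' t
  have hYl : ∀ l, lp u (lev b d l) (Y l) ≤ ∑ l' ∈ Ioc n₁ L,
      (CE + CC + CH) * TB b d n₀ n₃ n m v θ ε l l' *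
        (CA * (b : ℝ) ^ (-((l' : ℝ) * (r - 1 / p))) * N) := by
    intro l
    refine (hLP.1 (Bo d) ℕ u (lev b d l) (Ioc n₁ L) (fun l' B => ∑ B' ∈ lev b d l',
      (if n₀ ≤ l ∧ l ≤ n then -Ent b m x B B' else Hm b B B') * zz b f B') hu1).trans ?_
    refine Finset.sum_le_sum fun l' hl' => ?_
    rw [Finset.mem_Ioc] at hl'
    refine (ERR_pair hLP b d u v θ ε C₁ CE CC CH hb hu0 hv0 hvu.le hCE hCC hCH n₀ n₁ n₃ n m x
      hn hnm hmn hn3 h0 h1 hx hE' hC' hH' l l' hl'.1 (zz b f)).trans ?_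
    have hT0 := ERR_TB_nonneg b d n₀ n₃ n m v θ ε l l'
    exact mul_le_mul_of_nonneg_left (hA' l' Λ c) (by positivity)
  have hl : ∀ l ∈ range (L + 2 * d + 1),
      eLpNorm (fun t => ∑ B ∈ lev b d l, Y l B * Phi b B t) (ENNReal.ofReal q) (haar d) ≤
      ENNReal.ofReal (CS * (b : ℝ) ^ (-((l : ℝ) / q)) * (CP * ∑ l' ∈ Ioc n₁ L,
        (CE + CC + CH) * TB b d n₀ n₃ n m v θ ε l l' *
          (CA * (b : ℝ) ^ (-((l' : ℝ) * (r - 1 / p))) * N))) := by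
    intro l _
    have e1 := hS' l (lev b d l) id (fun B => (CP : ℂ) * Y l B)
      (fun B t => (CP : ℂ)⁻¹ * Phi b B t) (fun B hB => hB) (Set.injOn_id _) (by
        intro B _ t
        rw [norm_mul, norm_inv, Complex.norm_real, Real.norm_of_nonneg hCP.le, id]
        rw [inv_mul_le_iff₀ hCP]
        exact (hP' B t).1)
    have hCPc : (CP : ℂ) ≠ 0 := by exact_mod_cast hCP.ne'
    have e2 : (fun t : TT d => ∑ B ∈ lev b d l, (CP : ℂ) * Y l B * ((CP : ℂ)⁻¹ * Phi b B t)) =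
        fun t => ∑ B ∈ lev b d l, Y l B * Phi b B t := by
      funext t
      refine Finset.sum_congr rfl fun B _ => ?_
      field_simp
    rw [e2] at e1
    refine e1.trans (ENNReal.ofReal_le_ofReal ?_)
    rw [hLP.2.1 (Bo d) u (lev b d l) (CP : ℂ) (Y l) hu0, Complex.norm_real,
      Real.norm_of_nonneg hCP.le]
    have : 0 ≤ (b : ℝ) ^ (-((l : ℝ) / q)) := by positivity
    exact mul_le_mul_of_nonneg_left (mul_le_mul_of_nonneg_left (hYl l) hCP.le) (by positivity)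
  have hterm : ∀ l : ℕ, 0 ≤ CS * (b : ℝ) ^ (-((l : ℝ) / q)) * (CP * ∑ l' ∈ Ioc n₁ L,
        (CE + CC + CH) * TB b d n₀ n₃ n m v θ ε l l' *
          (CA * (b : ℝ) ^ (-((l' : ℝ) * (r - 1 / p))) * N)) := by
    intro l
    have : 0 ≤ ∑ l' ∈ Ioc n₁ L, (CE + CC + CH) * TB b d n₀ n₃ n m v θ ε l l' *
          (CA * (b : ℝ) ^ (-((l' : ℝ) * (r - 1 / p))) * N) := by
      refine Finset.sum_nonneg fun l' _ => ?_
      have hT0 := ERR_TB_nonneg b d n₀ n₃ n m v θ ε l l'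
      positivity
    positivity
  rw [hfun]
  refine (eLpNorm_sum_le (fun l _ => ?_) hq1).trans ?_
  · refine Continuous.aestronglyMeasurable ?_
    exact continuous_finsetSum _ fun B _ => continuous_const.mul (ERR_cont_Phi b B)
  refine (Finset.sum_le_sum hl).trans ?_
  rw [← ENNReal.ofReal_sum_of_nonneg (fun l _ => hterm l)]
  have hfin := ERR_fin Λ c (ENNReal.ofReal p)
  rw [← ENNReal.ofReal_toReal hfin, ← hN]
  have hsum0 : 0 ≤ CS * CP * (CE + CC + CH) * CA * ∑ l ∈ range (L + 2 * d + 1),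
      ∑ l' ∈ Ioc n₁ L, (b : ℝ) ^ (-((l : ℝ) / q)) * (b : ℝ) ^ (-((l' : ℝ) * (r - 1 / p))) *
        TB b d n₀ n₃ n m v θ ε l l' := by
    refine mul_nonneg (by positivity) (Finset.sum_nonneg fun l _ => Finset.sum_nonneg
      fun l' _ => ?_)
    have hT0 := ERR_TB_nonneg b d n₀ n₃ n m v θ ε l l'
    positivity
  rw [← ENNReal.ofReal_mul hsum0]
  refine ENNReal.ofReal_le_ofReal (le_of_eq ?_)
  rw [Finset.mul_sum, Finset.sum_mul]
  refine Finset.sum_congr rfl fun l _ => ?_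
  rw [Finset.mul_sum, Finset.mul_sum, Finset.mul_sum, Finset.sum_mul]
  refine Finset.sum_congr rfl fun l' _ => ?_
  ring

end Pool.Agent.Helper37.SU
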